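import Pool.Agent.Q197.SP.R04e

/-!
# The least second summand in Cramér's random model: distribution of the typical values

`A` is Cramér's random model of the primes and `el S m` the `m`-th element `≥ 3` of `S`, the model of the `m`-th prime.
For `n ≥ 2` let `m(n)` be the least `m ≥ 1` such that `el A (el A m) + 2` and `el A (n - m) + 2` are elements of `A`.
Almost surely `m(n) / (log n log log n)` has the exponential distribution function: for every `t > 0` the density of
the `n` with `m(n) > t log n log log n` is `exp (-t)`.
-/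

set_option autoImplicit false

namespace Pool.Agent.Results.MP_04e9b2_nt.LeastSecondIndexDistribution

open MeasureTheory Filter Pool.Agent.Q120.MF Pool.Agent.Q197.CI Pool.Agent.Q197.SP.R04e
open scoped Topology

theorem result :
    (∃ (Ω : Type) (_ : MeasurableSpace Ω) (μ : Measure Ω) (A : Ω → Set ℕ), IsProbabilityMeasure μ ∧ IsCramer μ A) ∧
    ∀ (Ω : Type) [MeasurableSpace Ω] (μ : Measure Ω) [IsProbabilityMeasure μ] (A : Ω → Set ℕ), IsCramer μ A →
      ∀ t : ℝ, 0 < t → ∀ᵐ ω ∂μ, Tendsto (fun N : ℕ =>
        cntP (fun n => NoSol (Sol (A ω)) n (t * (Real.log n * Real.log (Real.log n)))) N / N) atTop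
          (𝓝 (Real.exp (-t))) := by
  refine ⟨all_parts.1, fun Ω _ μ _ A hA => ?_⟩
  exact (all_parts.2 Ω μ A hA).2.2.2.1

end Pool.Agent.Results.MP_04e9b2_nt.LeastSecondIndexDistribution
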