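import Pool.Agent.Q197.SP.R04e

/-!
# The least second summand in Cramér's random model: extremal order

`A` is Cramér's random model of the primes and `el S m` the `m`-th element `≥ 3` of `S`, the model of the `m`-th prime.
For `n ≥ 2` let `m(n)` be the least `m ≥ 1` such that `el A (el A m) + 2` and `el A (n - m) + 2` are elements of `A`.
Almost surely `m(n)` exists for all large `n`, its upper limit relative to `log² n log log n` is `2`, and the number of
`n ≤ N` with `m(n) > c log² n log log n` is `N ^ (1 - c / 2 + o(1))`.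
-/

set_option autoImplicit false

namespace Pool.Agent.Results.MP_04e9b2_nt.LeastSecondIndexOrder

open MeasureTheory Filter Pool.Agent.Q120.MF Pool.Agent.Q197.CI Pool.Agent.Q197.SP.R04e
open scoped Topology

theorem result :
    (∃ (Ω : Type) (_ : MeasurableSpace Ω) (μ : Measure Ω) (A : Ω → Set ℕ), IsProbabilityMeasure μ ∧ IsCramer μ A) ∧
    ∀ (Ω : Type) [MeasurableSpace Ω] (μ : Measure Ω) [IsProbabilityMeasure μ] (A : Ω → Set ℕ), IsCramer μ A →
      -- the question, for all large `n`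
      (∀ᵐ ω ∂μ, (A ω).Infinite ∧ ∀ᶠ n : ℕ in atTop, ∃ k m : ℕ, 1 ≤ k ∧ 1 ≤ m ∧ n = k + m ∧
        el (A ω) k + 2 ∈ A ω ∧ el (A ω) (el (A ω) m) + 2 ∈ A ω) ∧
      -- the least `m`
      (∀ c : ℝ, 2 < c → ∀ᵐ ω ∂μ, ∀ᶠ n : ℕ in atTop,
        ∃ m : ℕ, 1 ≤ m ∧ (m : ℝ) ≤ c * (Real.log n ^ 2 * Real.log (Real.log n)) ∧ Sol (A ω) n m) ∧
      (∀ c : ℝ, 0 < c → c < 2 → ∀ᵐ ω ∂μ, Tendsto (fun N : ℕ =>
        Real.log (cntP (fun n => NoSol (Sol (A ω)) n (c * (Real.log n ^ 2 * Real.log (Real.log n)))) N) / Real.log N)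
          atTop (𝓝 (1 - c / 2))) := by
  refine ⟨all_parts.1, fun Ω _ μ _ A hA => ?_⟩
  obtain ⟨h1, h2, h3, _, _⟩ := all_parts.2 Ω μ A hA
  exact ⟨h1, h2, h3⟩

end Pool.Agent.Results.MP_04e9b2_nt.LeastSecondIndexOrder
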