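import Pool.Agent.Q204.RS.Nth

/-!
# A random set in place of the indices `m` with `p_{p_m} + 2` prime

Question Q1 asks for a decomposition `n = k + m` such that `p_k + 2` and `p_{p_m} + 2` are both prime. Here the
set of the second summands in `(x, 2 x]` is replaced by a random set of the same (or of a smaller) size.

For all `w` between `K log ^ 2 x` and `x` almost all the sets `M` of `w` integers of `(x, 2 x]`, up to the
proportion `x ^ (-A)`, have the following properties for EVERY `n` in `[3 x, 6 x]`: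

* the number of decompositions `n = k + m` with `m` in `M` and `p_k + 2` a prime or a product of two large
  primes has exactly the expected order of magnitude `w / log x`;
* the number of the decompositions `n = k + m` with `m` in `M` and `p_k + 2` prime is the proportion
  `w / x` of the number of `k` in `[n - 2 x, n - x)` with `p_k + 2` prime, up to an error of `ε` times the
  expected order of magnitude.
-/

set_option autoImplicit false
set_option maxHeartbeats 1000000

namespace Pool.Agent.Results.MP_04e9b2_nt.RandomSecondSummand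

open Finset Filter
open Pool.Agent.Y840.CT
open Pool.Agent.Q253.Thin (upper1 GoodF_t)
open Pool.Agent.Q204.RS (mostly nn nn_prime nn_strictMono nn_ge nn_ge2 nn_window F2 sys2 VT_up)

/-- the `k`-th prime, `p 1 = 2` -/
noncomputable def p (k : ℕ) : ℕ := Nat.nth Nat.Prime (k - 1)

/-- `n` is a prime or a product of two primes, and all its prime factors are larger than `z` -/
def P2 (z : ℝ) (n : ℕ) : Prop :=
  (n.Prime ∨ ∃ a b : ℕ, a.Prime ∧ b.Prime ∧ n = a * b) ∧ ∀ q : ℕ, q.Prime → q ∣ n → z < q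

/-- the ninth root of the prime `p_{6 x}` -/
noncomputable def ninth (x : ℕ) : ℝ := (p (6 * x) : ℝ) ^ (1 / 9 : ℝ)

open Classical in
/-- the number of the decompositions `n = k + m` with `m` in `M` and `p_k + 2` a prime or a product of two
primes, larger than `z` -/
noncomputable def chen (z : ℝ) (M : Finset ℕ) (n : ℕ) : ℕ := (M.filter (fun m => P2 z (p (n - m) + 2))).card

/-- the number of the decompositions `n = k + m` with `m` in `M` and `p_k + 2` prime -/
noncomputable def twin (M : Finset ℕ) (n : ℕ) : ℕ := (M.filter (fun m => (p (n - m) + 2).Prime)).card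

/-- the regularity of a set `M` of `w` integers of `(x, 2 x]` -/
def Regular (c C ε : ℝ) (x w : ℕ) (M : Finset ℕ) : Prop := ∀ n : ℕ, 3 * x ≤ n → n ≤ 6 * x →
  c * (w / Real.log x) ≤ chen (ninth x) M n ∧ chen (ninth x) M n ≤ C * (w / Real.log x) ∧
  |(twin M n : ℝ) - w / x * twin (Ioc x (2 * x)) n| ≤ ε * (w / Real.log x)

theorem P2_iff {n : ℕ} (hn : 1 < n) (z : ℝ) :
    P2 z n ↔ n.primeFactorsList.length ≤ 2 ∧ ∀ q : ℕ, q.Prime → q ∣ n → z < q :=
  Pool.Agent.Q253.Thin.P2_iff hn z

/-- the ninth root of `p_{6 x}` is at most `x` -/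
theorem ninth_bd {x : ℕ} (hx : 500 ≤ x) (hl : Real.log (nn (6 * x - 1)) ≤ 3 * Real.log x) : ninth x ≤ x := by
  have hxr : (500 : ℝ) ≤ x := by exact_mod_cast hx
  have hx0 : (0 : ℝ) < x := by linarith
  have hP0 : (0 : ℝ) < (nn (6 * x - 1) : ℝ) := by exact_mod_cast (nn_prime _).pos
  have h1 : (nn (6 * x - 1) : ℝ) ≤ (x : ℝ) ^ (3 : ℝ) := by
    rw [← Real.log_le_log_iff hP0 (by positivity), Real.log_rpow hx0]
    exact hl
  have h2 := Real.rpow_le_rpow hP0.le h1 (show (0 : ℝ) ≤ 1 / 9 by norm_num)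
  rw [← Real.rpow_mul hx0.le] at h2
  have h3 : ninth x = (nn (6 * x - 1) : ℝ) ^ (1 / 9 : ℝ) := rfl
  rw [h3]
  refine h2.trans ?_
  have := Real.rpow_le_rpow_of_exponent_le (show (1 : ℝ) ≤ x by linarith) (show (3 * (1 / 9) : ℝ) ≤ 1 by norm_num)
  rwa [Real.rpow_one] at this

open Classical in
/-- the second summands in `(x, 2 x]` with `p_k + 2` a prime or a product of two primes -/
noncomputable def RC (x n : ℕ) : Finset ℕ := (Ioc x (2 * x)).filter (fun m => P2 (ninth x) (p (n - m) + 2))

theorem RC_card {t x n : ℕ} (ht : 9 ≤ t) (hx : 500 ≤ x) (hl : Real.log (nn (6 * x - 1)) ≤ 3 * Real.log x)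
    (hn : 3 * x ≤ n) :
    (RC x n).card = (GoodF t (nn (6 * x - 1)) (nn (n - 2 * x - 1) - 1) (nn (n - x - 1) - 1) F2 (-2)).card := by
  classical
  have hzx := ninth_bd hx hl
  have hXn : 1 ≤ nn (6 * x - 1) := (nn_prime _).pos
  have hX1 : (1 : ℝ) ≤ (nn (6 * x - 1) : ℝ) := by exact_mod_cast hXn
  have ht9 : (9 : ℝ) ≤ t := by exact_mod_cast ht
  have hpow : (nn (6 * x - 1) : ℝ) ^ (1 / (t : ℝ)) ≤ ninth x :=
    Real.rpow_le_rpow_of_exponent_le hX1 (one_div_le_one_div_of_le (by norm_num) ht9)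
  have himg : (RC x n).image (fun m => p (n - m)) =
      GoodF t (nn (6 * x - 1)) (nn (n - 2 * x - 1) - 1) (nn (n - x - 1) - 1) F2 (-2) := by
    ext q
    rw [mem_image]
    unfold RC GoodF
    rw [mem_filter, mem_Ioc]
    constructor
    · rintro ⟨m, hm, rfl⟩
      rw [mem_filter, mem_Ioc] at hm
      obtain ⟨⟨h1, h2⟩, h4⟩ := hm
      have hpe : p (n - m) = nn (n - m - 1) := rfl
      have hpp : (p (n - m)).Prime := nn_prime _
      rw [P2_iff (by omega)] at h4
      have e : (-2 : ℤ) - ((p (n - m) : ℕ) : ℤ) = -((p (n - m) + 2 : ℕ) : ℤ) := by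
        push_cast
        ring
      have g1 : nn (n - 2 * x - 1) ≤ p (n - m) := by
        rw [hpe]
        exact nn_strictMono.monotone (by omega)
      have g2 : p (n - m) < nn (n - x - 1) := by
        rw [hpe]
        exact nn_strictMono (by omega)
      have g3 : x ≤ nn (n - 2 * x - 1) := by
        have := nn_ge (n - 2 * x - 1)
        omega
      have g4 := (nn_prime (n - 2 * x - 1)).pos
      have g5 : ninth x < p (n - m) := by
        rcases hzx.lt_or_eq with h | h
        · exact lt_of_lt_of_le h (by exact_mod_cast g3.trans g1)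
        · have h6 : x < p (n - m) := by
            have := nn_ge2 (n - m - 1)
            rw [← hpe] at this
            omega
          rw [h]
          exact_mod_cast h6
      refine ⟨⟨by omega, by omega⟩, hpp, lt_of_le_of_lt hpow g5, ⟨?_, ?_, ?_⟩, ?_⟩
      · rw [e]
        simp
        omega
      · rw [e, Int.natAbs_neg, Int.natAbs_natCast]
        exact h4.1
      · intro q hq hd
        rw [e, dvd_neg] at hd
        exact h4.2 q hq (by exact_mod_cast hd)
      · intro q hq hqX h hh hd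
        unfold F2 at hh
        rw [mem_singleton] at hh
        rw [hh, e, dvd_neg] at hd
        have := h4.2 q hq (by exact_mod_cast hd)
        linarith
    · rintro ⟨⟨h1, h2⟩, hp, _, ⟨h3, h4, h5⟩, _⟩
      have e : (-2 : ℤ) - (q : ℤ) = -((q + 2 : ℕ) : ℤ) := by
        push_cast
        ring
      obtain ⟨i, hi⟩ : ∃ i, nn i = q := ⟨Nat.count Nat.Prime q, Nat.nth_count hp⟩
      have g4 := (nn_prime (n - 2 * x - 1)).pos
      have g5 := (nn_prime (n - x - 1)).pos
      have i1 : n - 2 * x - 1 ≤ i := by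
        by_contra hcon
        push Not at hcon
        have := nn_strictMono hcon
        omega
      have i2 : i < n - x - 1 := by
        by_contra hcon
        push Not at hcon
        have := nn_strictMono.monotone hcon
        omega
      have e1 : n - (n - (i + 1)) = i + 1 := by omega
      have e2 : p (n - (n - (i + 1))) = q := by
        rw [e1, ← hi]
        rfl
      refine ⟨n - (i + 1), ?_, e2⟩
      rw [mem_filter, mem_Ioc]
      refine ⟨⟨by omega, by omega⟩, ?_⟩
      rw [e2, P2_iff (by omega)]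
      rw [e, Int.natAbs_neg, Int.natAbs_natCast] at h4
      refine ⟨h4, fun r hr hd => h5 r hr ?_⟩
      rw [e, dvd_neg]
      exact_mod_cast hd
  rw [← himg, card_image_of_injOn]
  intro a ha b hb hab
  rw [mem_coe] at ha hb
  unfold RC at ha hb
  rw [mem_filter, mem_Ioc] at ha hb
  simp only at hab
  have h1 : n - a - 1 = n - b - 1 := nn_strictMono.injective hab
  omega

/-- the second summands in `(x, 2 x]` with `p_k + 2` prime -/
noncomputable def RT (x n : ℕ) : Finset ℕ := (Ioc x (2 * x)).filter (fun m => (p (n - m) + 2).Prime)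

theorem RT_sub {x n : ℕ} (hx : 500 ≤ x) (hl : Real.log (nn (6 * x - 1)) ≤ 3 * Real.log x)
    (hn : 3 * x ≤ n) : RT x n ⊆ RC x n := by
  classical
  have hzx := ninth_bd hx hl
  intro m hm
  unfold RT at hm
  unfold RC
  rw [mem_filter] at hm ⊢
  obtain ⟨h1, h3⟩ := hm
  refine ⟨h1, Or.inl h3, ?_⟩
  intro q hq hd
  rw [mem_Ioc] at h1
  have h4 := (Nat.prime_dvd_prime_iff_eq hq h3).1 hd
  have h5 : x < q := by
    have h6 : n - m - 1 + 1 ≤ nn (n - m - 1) := nn_ge _
    have h7 : p (n - m) = nn (n - m - 1) := rfl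
    omega
  have h6 : (x : ℝ) < q := by exact_mod_cast h5
  linarith

theorem inter_RC {x n : ℕ} {M : Finset ℕ} (hM : M ⊆ Ioc x (2 * x)) : (M ∩ RC x n).card = chen (ninth x) M n := by
  classical
  unfold chen RC
  congr 1
  ext m
  rw [mem_inter, mem_filter, mem_filter]
  exact ⟨fun h => ⟨h.1, h.2.2⟩, fun h => ⟨h.1, hM h.1, h.2⟩⟩

theorem inter_RT {x n : ℕ} {M : Finset ℕ} (hM : M ⊆ Ioc x (2 * x)) : (M ∩ RT x n).card = twin M n := by
  classical
  unfold twin RT
  congr 1
  ext m
  rw [mem_inter, mem_filter, mem_filter]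
  exact ⟨fun h => ⟨h.1, h.2.2⟩, fun h => ⟨h.1, hM h.1, h.2⟩⟩

open Classical in
/-- **Theorem.** There are `c, C > 0` such that for all `ε > 0` and `A` there is a `K` such that for all
large `x` and all integers `w` with `K log ^ 2 x ≤ w ≤ x`, all but the proportion `x ^ (-A)` of the sets `M` of
`w` integers of `(x, 2 x]` are regular: for EVERY `n` in `[3 x, 6 x]` the number of the decompositions
`n = k + m` with `m` in `M` and `p_k + 2` a prime or a product of two primes, larger than the ninth root of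
`p_{6 x}`, is between `c w / log x` and `C w / log x`, and the number of the decompositions `n = k + m` with
`m` in `M` and `p_k + 2` prime is the proportion `w / x` of their number for all `m` in `(x, 2 x]`, up to an
error `ε w / log x`. -/
theorem result : ∃ c C : ℝ, 0 < c ∧ 0 < C ∧ ∀ ε : ℝ, 0 < ε → ∀ A : ℕ, ∃ K : ℝ, 0 < K ∧ ∃ x₀ : ℕ, ∀ x : ℕ,
    x₀ ≤ x → ∀ w : ℕ, K * Real.log x ^ 2 ≤ w → w ≤ x →
      ((powersetCard w (Ioc x (2 * x))).filter (fun M => ¬ Regular c C ε x w M)).card * x ^ A ≤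
        (powersetCard w (Ioc x (2 * x))).card := by
  obtain ⟨t0, ht0, c0, hc0, hgen, -⟩ := genF 1
  set t := max t0 9 with htdef
  have ht1 : 1 ≤ t := ht0.trans (le_max_left _ _)
  have ht9 : 9 ≤ t := le_max_right _ _
  obtain ⟨C0, hC0, hup⟩ := upper1 1 t ht1
  obtain ⟨c1, hc1, hVlow⟩ := VF_low 1
  obtain ⟨C1, hC1, hVup⟩ := VT_up
  obtain ⟨X₁, hX₁⟩ := hgen (1 / 42) (by norm_num)
  obtain ⟨X₂, hX₂⟩ := hup (1 / 42) (by norm_num)
  obtain ⟨X₃, hX₃⟩ := nn_window
  refine ⟨c0 / 2 * (c1 / 18), 2 * C0 * (21 * C1), by positivity, by positivity, ?_⟩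
  intro ε hε A
  set ε' : ℝ := min (min (c0 / (84 * C0)) 1) (ε / (21 * C0 * C1)) with hε'
  have hε'0 : 0 < ε' := by positivity
  have e1 : ε' * (42 * C0) ≤ c0 / 2 := by
    have h1 : ε' ≤ c0 / (84 * C0) := (min_le_left _ _).trans (min_le_left _ _)
    have h2 := mul_le_mul_of_nonneg_right h1 (show 0 ≤ 42 * C0 by positivity)
    refine h2.trans (le_of_eq ?_)
    field_simp
    norm_num
  have e2 : ε' ≤ 1 := (min_le_left _ _).trans (min_le_right _ _)
  have e4 : ε' * (21 * C0 * C1) ≤ ε := by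
    have h1 : ε' ≤ ε / (21 * C0 * C1) := min_le_right _ _
    rwa [le_div_iff₀ (by positivity)] at h1
  set K : ℝ := 4 * (A + 4) / (ε' ^ 2 * (C0 * (c1 / 18))) with hK
  have hK0 : 0 < K := by positivity
  have hK2 : ε' ^ 2 * (C0 * (c1 / 18)) * K = 4 * (A + 4) := by
    rw [hK]
    field_simp
  refine ⟨K, hK0, max (max X₁ X₂) (max X₃ 500), ?_⟩
  intro x hx w hw hwx
  have hx1 : X₁ ≤ x := le_trans (le_trans (le_max_left _ _) (le_max_left _ _)) hx
  have hx2 : X₂ ≤ x := le_trans (le_trans (le_max_right _ _) (le_max_left _ _)) hx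
  have hx3 : X₃ ≤ x := le_trans (le_trans (le_max_left _ _) (le_max_right _ _)) hx
  have hx5 : 500 ≤ x := le_trans (le_trans (le_max_right _ _) (le_max_right _ _)) hx
  obtain ⟨hlP, hPup, hwin⟩ := hX₃ x hx3
  have hxr : (500 : ℝ) ≤ x := by exact_mod_cast hx5
  have hx0 : (0 : ℝ) < x := by linarith
  have hl1 : 1 ≤ Real.log x := by
    rw [Real.le_log_iff_exp_le hx0]
    have := Real.exp_one_lt_d9
    linarith
  have hl : 0 < Real.log x := by linarith
  have hXge : 6 * x ≤ nn (6 * x - 1) := by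
    have := nn_ge (6 * x - 1)
    omega
  have hXr : (6 : ℝ) * x ≤ (nn (6 * x - 1) : ℝ) := by exact_mod_cast hXge
  have hlX1 : Real.log x ≤ Real.log (nn (6 * x - 1) : ℝ) := Real.log_le_log hx0 (by linarith)
  have hw0 : (0 : ℝ) < w := lt_of_lt_of_le (by positivity) hw
  set V : ℝ := VF F2 (nn (6 * x - 1)) with hV
  have hVlo : c1 / (9 * Real.log x ^ 2) ≤ V := by
    refine le_trans ?_ (hVlow (nn (6 * x - 1)) (by omega) F2 (sys2 (X := 2) le_rfl).card (sys2 (X := 2) le_rfl).loc)
    apply div_le_div_of_nonneg_left hc1.le (pow_pos (hl.trans_le hlX1) _)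
    calc Real.log (nn (6 * x - 1) : ℝ) ^ (1 + 1) = Real.log (nn (6 * x - 1) : ℝ) ^ 2 := rfl
      _ ≤ (3 * Real.log x) ^ 2 := pow_le_pow_left₀ (by linarith) hlP 2
      _ = _ := by ring
  have hVhi : V ≤ C1 / Real.log x ^ 2 := by
    refine (hVup (nn (6 * x - 1)) (by omega)).trans ?_
    apply div_le_div_of_nonneg_left hC1.le (pow_pos hl 2)
    exact pow_le_pow_left₀ hl.le hlX1 2
  have hV0 : 0 < V := lt_of_lt_of_le (by positivity) hVlo
  -- the windows
  have hwindow : ∀ n : ℕ, 3 * x ≤ n → n ≤ 6 * x →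
      x * Real.log x / 2 ≤ ((nn (n - x - 1) - 1 : ℕ) : ℝ) - ((nn (n - 2 * x - 1) - 1 : ℕ) : ℝ) ∧
      ((nn (n - x - 1) - 1 : ℕ) : ℝ) - ((nn (n - 2 * x - 1) - 1 : ℕ) : ℝ) ≤ 21 * (x * Real.log x) ∧
      nn (n - x - 1) - 1 ≤ nn (6 * x - 1) := by
    intro n h3 h6
    have h7 := hwin (n - 2 * x - 1) (by omega) (by omega)
    rw [show n - 2 * x - 1 + x = n - x - 1 by omega] at h7
    have h8 := (nn_prime (n - x - 1)).pos
    have h9 := (nn_prime (n - 2 * x - 1)).pos
    have h10 : nn (n - x - 1) ≤ nn (6 * x - 1) := nn_strictMono.monotone (by omega)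
    have h11 : (nn (n - x - 1) : ℝ) ≤ nn (6 * x - 1) := by exact_mod_cast h10
    have h12 : (1 : ℝ) ≤ nn (n - 2 * x - 1) := by exact_mod_cast h9
    rw [Nat.cast_sub (by omega), Nat.cast_sub (by omega)]
    push_cast
    exact ⟨by linarith, by linarith, by omega⟩
  -- the counts, in units of `x log x V`
  have hcount : ∀ n : ℕ, 3 * x ≤ n → n ≤ 6 * x →
      c0 * (x * Real.log x / 2 * V) ≤ ((RC x n).card : ℝ) ∧ ((RC x n).card : ℝ) ≤ C0 * (21 * (x * Real.log x) * V) := by
    intro n h3 h6
    obtain ⟨hw1, hw2, hw3⟩ := hwindow n h3 h6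
    have hAB' : (1 / 42 : ℝ) * ((nn (6 * x - 1) : ℕ) : ℝ) ≤
        ((nn (n - x - 1) - 1 : ℕ) : ℝ) - ((nn (n - 2 * x - 1) - 1 : ℕ) : ℝ) := by
      linarith
    have g1 := hX₁ (nn (6 * x - 1)) (by omega) F2 (-2) (sys2 (by omega)) (nn (n - 2 * x - 1) - 1) (nn (n - x - 1) - 1)
      hw3 hAB'
    have g2 := hX₂ (nn (6 * x - 1)) (by omega) F2 (-2) (sys2 (by omega)) (nn (n - 2 * x - 1) - 1) (nn (n - x - 1) - 1)
      hw3 hAB'
    have g3 : ((GoodF t0 (nn (6 * x - 1)) (nn (n - 2 * x - 1) - 1) (nn (n - x - 1) - 1) F2 (-2)).card : ℝ) ≤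
        (GoodF t (nn (6 * x - 1)) (nn (n - 2 * x - 1) - 1) (nn (n - x - 1) - 1) F2 (-2)).card := by
      exact_mod_cast card_le_card (GoodF_t ht0 (le_max_left _ _) (by omega) _ _)
    rw [← hV] at g1 g2
    rw [RC_card ht9 hx5 hlP h3]
    constructor
    · refine le_trans ?_ (g1.trans g3)
      have h1 := mul_le_mul_of_nonneg_right hw1 hV0.le
      have h2 := mul_le_mul_of_nonneg_left h1 hc0.le
      linarith
    · refine g2.trans ?_
      exact mul_le_mul_of_nonneg_left (mul_le_mul_of_nonneg_right hw2 hV0.le) hC0.le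
  set r : ℝ := w / x with hr
  have hr0 : 0 ≤ r := by positivity
  have hElo : c1 / 18 * (w / Real.log x) ≤ r * (x * Real.log x / 2 * V) := by
    have h1 := mul_le_mul_of_nonneg_left hVlo (show 0 ≤ (w : ℝ) * Real.log x / 2 by positivity)
    have h2 : r * (x * Real.log x / 2 * V) = w * Real.log x / 2 * V := by
      rw [hr]
      field_simp
    rw [h2]
    refine le_trans (le_of_eq ?_) h1
    field_simp
    ring
  have hEhi : r * (21 * (x * Real.log x) * V) ≤ 21 * C1 * (w / Real.log x) := by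
    have h1 := mul_le_mul_of_nonneg_left hVhi (show 0 ≤ 21 * ((w : ℝ) * Real.log x) by positivity)
    have h2 : r * (21 * (x * Real.log x) * V) = 21 * (w * Real.log x) * V := by
      rw [hr]
      field_simp
    rw [h2]
    refine le_trans h1 (le_of_eq ?_)
    field_simp
  set E : ℝ := r * (21 * (x * Real.log x) * V) with hE
  have hE0 : 0 < E := by positivity
  have hPcard : (Ioc x (2 * x)).card = x := by
    rw [Nat.card_Ioc]
    omega
  set I : Finset (ℕ × Bool) := Icc (3 * x) (6 * x) ×ˢ univ with hI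
  set R : ℕ × Bool → Finset ℕ := fun i => if i.2 = true then RT x i.1 else RC x i.1 with hR
  have hmem : ∀ i ∈ I, 3 * x ≤ i.1 ∧ i.1 ≤ 6 * x := by
    intro i hi
    rw [hI, mem_product, mem_Icc] at hi
    exact hi.1
  have hIc : I.card ≤ 6 * x + 2 := by
    rw [hI, card_product, Nat.card_Icc, Finset.card_univ, Fintype.card_bool]
    omega
  have hmost := mostly (Ioc x (2 * x)) I R (by
      intro i _
      rw [hR]
      simp only
      split_ifs
      · unfold RT
        exact filter_subset _ _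
      · unfold RC
        exact filter_subset _ _) (w := w) (by rw [hPcard]; exact hwx) (by rw [hPcard]; omega) hε'0 e2
      (fun _ => C0 * E) (by
      intro i hi
      rw [hPcard, ← hr]
      obtain ⟨h3, h6⟩ := hmem i hi
      have h7 := (hcount i.1 h3 h6).2
      have h8 : ((R i).card : ℝ) ≤ ((RC x i.1).card : ℝ) := by
        rw [hR]
        simp only
        split_ifs
        · exact_mod_cast card_le_card (RT_sub hx5 hlP h3)
        · exact le_rfl
      have h9 := mul_le_mul_of_nonneg_left (h8.trans h7) hr0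
      refine h9.trans (le_of_eq ?_)
      rw [hE]
      ring) ((A + 4) * Real.log x) (by
      intro i hi
      have h0 : r * (x * Real.log x / 2 * V) ≤ E := by
        rw [hE]
        apply mul_le_mul_of_nonneg_left _ hr0
        apply mul_le_mul_of_nonneg_right _ hV0.le
        have : 0 < (x : ℝ) * Real.log x := by positivity
        linarith
      have h1 : c1 / 18 * (K * Real.log x) ≤ E := by
        refine le_trans ?_ (hElo.trans h0)
        apply mul_le_mul_of_nonneg_left _ (by positivity)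
        rw [le_div_iff₀ (by positivity)]
        refine le_trans (le_of_eq ?_) hw
        ring
      have h2 := mul_le_mul_of_nonneg_left h1 (show 0 ≤ ε' ^ 2 * C0 by positivity)
      calc 4 * (((A : ℝ) + 4) * Real.log x) = (4 * (A + 4)) * Real.log x := by ring
        _ = ε' ^ 2 * (C0 * (c1 / 18)) * K * Real.log x := by rw [hK2]
        _ = ε' ^ 2 * C0 * (c1 / 18 * (K * Real.log x)) := by ring
        _ ≤ _ := h2
        _ = _ := by ring)
  simp only [hPcard] at hmost
  have hexp : Real.exp (-((A + 4) * Real.log x)) = 1 / (x : ℝ) ^ (A + 4) := by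
    rw [Real.exp_neg, one_div]
    congr 1
    rw [show ((A : ℝ) + 4) * Real.log x = ((A + 4 : ℕ) : ℝ) * Real.log x by push_cast; ring, Real.exp_nat_mul,
      Real.exp_log hx0]
  rw [hexp] at hmost
  have hsub : (powersetCard w (Ioc x (2 * x))).filter (fun M => ¬ Regular (c0 / 2 * (c1 / 18)) (2 * C0 * (21 * C1)) ε x w M) ⊆
      (powersetCard w (Ioc x (2 * x))).filter
        (fun S => ¬ ∀ i ∈ I, |((S ∩ R i).card : ℝ) - (w / x : ℝ) * (R i).card| ≤ ε' * (C0 * E)) := by
    intro M hM
    rw [mem_filter] at hM ⊢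
    refine ⟨hM.1, fun hMR => hM.2 ?_⟩
    have hMP := (mem_powersetCard.1 hM.1).1
    intro n h3 h6
    have hJn : ∀ b : Bool, (n, b) ∈ I := by
      intro b
      rw [hI, mem_product, mem_Icc]
      exact ⟨⟨h3, h6⟩, mem_univ _⟩
    have k1 := hMR (n, false) (hJn false)
    have k2 := hMR (n, true) (hJn true)
    rw [← hr, hR] at k1 k2
    simp only [if_true, Bool.false_eq_true, if_false] at k1 k2
    rw [inter_RC hMP] at k1
    have hRT : (RT x n).card = twin (Ioc x (2 * x)) n := rfl
    rw [inter_RT hMP, hRT] at k2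
    obtain ⟨g1, g2⟩ := hcount n h3 h6
    have g3 := mul_le_mul_of_nonneg_left g1 hr0
    have g4 := mul_le_mul_of_nonneg_left g2 hr0
    set E0 : ℝ := r * (x * Real.log x / 2 * V) with hE0d
    have hE42 : E = 42 * E0 := by
      rw [hE, hE0d]
      ring
    have hE00 : 0 ≤ E0 := by
      rw [hE0d]
      positivity
    have g5 : r * (c0 * (x * Real.log x / 2 * V)) = c0 * E0 := by
      rw [hE0d]
      ring
    have g6 : r * (C0 * (21 * (x * Real.log x) * V)) = C0 * E := by
      rw [hE]
      ring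
    rw [g5] at g3
    rw [g6] at g4
    obtain ⟨k3, k4⟩ := abs_le.1 k1
    have h1E := mul_le_mul_of_nonneg_right e1 hE00
    have h1E' : ε' * (C0 * E) = ε' * (42 * C0) * E0 := by
      rw [hE42]
      ring
    have h2E : ε' * (C0 * E) ≤ C0 * E := by
      have := mul_le_mul_of_nonneg_right e2 (show 0 ≤ C0 * E by positivity)
      linarith
    have hw2 : 0 ≤ (w : ℝ) / Real.log x := by positivity
    refine ⟨?_, ?_, ?_⟩
    · have h1 : c0 / 2 * E0 ≤ chen (ninth x) M n := by linarith
      refine le_trans ?_ h1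
      have := mul_le_mul_of_nonneg_left hElo (show 0 ≤ c0 / 2 by positivity)
      linarith
    · have h1 : (chen (ninth x) M n : ℝ) ≤ 2 * C0 * E := by linarith
      refine h1.trans ?_
      have := mul_le_mul_of_nonneg_left hEhi (show 0 ≤ 2 * C0 by positivity)
      linarith
    · refine k2.trans ?_
      have h1 := mul_le_mul_of_nonneg_left hEhi (show 0 ≤ ε' * C0 by positivity)
      have h2 := mul_le_mul_of_nonneg_right e4 hw2
      linarith
  have hfin : (((powersetCard w (Ioc x (2 * x))).filter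
      (fun M => ¬ Regular (c0 / 2 * (c1 / 18)) (2 * C0 * (21 * C1)) ε x w M)).card : ℝ) * (x : ℝ) ^ A ≤ x.choose w := by
    have h1 : (((powersetCard w (Ioc x (2 * x))).filter
      (fun M => ¬ Regular (c0 / 2 * (c1 / 18)) (2 * C0 * (21 * C1)) ε x w M)).card : ℝ) ≤
        (x.choose w : ℝ) * ((x + 1) * (2 * I.card * (1 / (x : ℝ) ^ (A + 4)))) := by
      refine le_trans ?_ hmost
      exact_mod_cast card_le_card hsub
    have h2 : ((x : ℝ) + 1) * (2 * I.card * (1 / (x : ℝ) ^ (A + 4))) ≤ 1 / (x : ℝ) ^ A := by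
      have h3 : (I.card : ℝ) ≤ 6 * x + 2 := by exact_mod_cast hIc
      have h4 : ((x : ℝ) + 1) * (2 * I.card) ≤ (x : ℝ) ^ 4 := by
        have h5 : ((x : ℝ) + 1) * (2 * I.card) ≤ (2 * x) * (2 * (7 * x)) := by
          apply mul_le_mul (by linarith) (by linarith) (by positivity) (by positivity)
        refine h5.trans ?_
        have h6 : (28 : ℝ) ≤ (x : ℝ) ^ 2 := by nlinarith
        nlinarith [mul_nonneg (sub_nonneg.2 h6) (sq_nonneg (x : ℝ))]
      calc ((x : ℝ) + 1) * (2 * I.card * (1 / (x : ℝ) ^ (A + 4))) =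
          (((x : ℝ) + 1) * (2 * I.card)) * (1 / (x : ℝ) ^ (A + 4)) := by ring
        _ ≤ (x : ℝ) ^ 4 * (1 / (x : ℝ) ^ (A + 4)) := mul_le_mul_of_nonneg_right h4 (by positivity)
        _ = 1 / (x : ℝ) ^ A := by
          rw [pow_add]
          field_simp
    have h3 := h1.trans (mul_le_mul_of_nonneg_left h2 (Nat.cast_nonneg _))
    have h4 := mul_le_mul_of_nonneg_right h3 (show 0 ≤ (x : ℝ) ^ A by positivity)
    refine h4.trans (le_of_eq ?_)
    field_simp
  rw [card_powersetCard, hPcard]
  exact_mod_cast hfin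

end Pool.Agent.Results.MP_04e9b2_nt.RandomSecondSummand
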