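import Pool.Agent.Q197.SP.R04e

/-!
# The number of super twin primes in Cramér's random model

`A` is Cramér's random model of the primes and `el S m` the `m`-th element `≥ 3` of `S`, the model of the `m`-th prime.
Almost surely the number of the `m ≤ h` for which `el A (el A m) + 2` is an element of `A` is asymptotic to `h / log h`.
-/

set_option autoImplicit false

namespace Pool.Agent.Results.MP_04e9b2_nt.SuperTwinCount

open MeasureTheory Filter Pool.Agent.Q120.MF Pool.Agent.Q197.CI Pool.Agent.Q197.SP.R04e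
open scoped Topology

theorem result :
    (∃ (Ω : Type) (_ : MeasurableSpace Ω) (μ : Measure Ω) (A : Ω → Set ℕ), IsProbabilityMeasure μ ∧ IsCramer μ A) ∧
    ∀ (Ω : Type) [MeasurableSpace Ω] (μ : Measure Ω) [IsProbabilityMeasure μ] (A : Ω → Set ℕ), IsCramer μ A →
      ∀ᵐ ω ∂μ, Tendsto (fun h : ℕ => ({m : ℕ | 1 ≤ m ∧ m ≤ h ∧ el (A ω) (el (A ω) m) + 2 ∈ A ω}.ncard : ℝ) *
        Real.log h / h) atTop (𝓝 1) := by
  refine ⟨all_parts.1, fun Ω _ μ _ A hA => ?_⟩
  exact (all_parts.2 Ω μ A hA).2.2.2.2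

end Pool.Agent.Results.MP_04e9b2_nt.SuperTwinCount
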